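import Pool.Agent.D0H34.KG.Stm

/-!
# Project KG (helper34), module 1 ROOT
-/

set_option autoImplicit false

open Polynomial NumberField

namespace Pool.Agent.D0H20.KG

open Pool.Agent.D0H34.KG

theorem t_ROOT : Pool.Agent.D0H34.KG.S_ROOT := by
  intro K _ _ L n ℓ y hn hL hS hℓ hy hyl
  by_contra hc
  obtain ⟨k, hk⟩ := hyl
  have hfd : FiniteDimensional K L := Module.finite_of_finrank_pos (by omega)
  have hfin : Finite (L →ₐ[K] AlgebraicClosure K) := inferInstance
  let y' : L := ⟨y, hy⟩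
  -- all the conjugates have the same power
  have hpow : ∀ φ : L →ₐ[K] AlgebraicClosure K, (φ y') ^ ℓ = algebraMap K _ k := by
    intro φ
    have h1 : y' ^ ℓ = algebraMap K L k := by
      apply Subtype.ext
      change y ^ ℓ = algebraMap K (AlgebraicClosure K) k
      exact hk.symm
    rw [← map_pow, h1, AlgHom.commutes]
  -- two different conjugates
  have h2 : ∃ φ ψ : L →ₐ[K] AlgebraicClosure K, φ y' ≠ ψ y' := by
    have h3 : ∃ σ : AlgebraicClosure K ≃ₐ[K] AlgebraicClosure K, σ y ≠ y := by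
      by_contra h
      push Not at h
      exact hc ((InfiniteGalois.mem_range_algebraMap_iff_fixed y).2 h)
    obtain ⟨σ, hσ⟩ := h3
    exact ⟨σ.toAlgHom.comp L.val, L.val, hσ⟩
  obtain ⟨φ₀, ψ₀, h0⟩ := h2
  -- all the conjugates are different
  have hinj : ∀ φ ψ : L →ₐ[K] AlgebraicClosure K, φ ≠ ψ → φ y' ≠ ψ y' := by
    classical
    intro φ ψ hne heq
    have h3 : ∃ χ : L →ₐ[K] AlgebraicClosure K, χ y' ≠ φ y' := by
      by_contra h
      push Not at h
      exact h0 ((h φ₀).trans (h ψ₀).symm)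
    obtain ⟨χ, hχ⟩ := h3
    have hχφ : φ ≠ χ := by
      rintro rfl
      exact hχ rfl
    obtain ⟨σ, hσ⟩ := hS (Equiv.swap ψ χ)
    have e1 : φ = σ.toAlgHom.comp φ := by
      rw [← hσ φ, Equiv.swap_apply_of_ne_of_ne hne hχφ]
    have e2 : χ = σ.toAlgHom.comp ψ := by
      rw [← hσ ψ, Equiv.swap_apply_left]
    apply hχ
    rw [e2, e1]
    change σ (ψ y') = σ (φ y')
    rw [heq]
  -- four embeddings
  have hcard : Nat.card (L →ₐ[K] AlgebraicClosure K) = n := by
    rw [← hL, Nat.card_eq_fintype_card]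
    exact AlgHom.card K L (AlgebraicClosure K)
  obtain ⟨e⟩ : Nonempty (Fin 4 ↪ (L →ₐ[K] AlgebraicClosure K)) := by
    have := Fintype.ofFinite (L →ₐ[K] AlgebraicClosure K)
    apply Function.Embedding.nonempty_of_card_le
    rw [Nat.card_eq_fintype_card] at hcard
    simp only [Fintype.card_fin]
    omega
  classical
  obtain ⟨σ, hσ⟩ := hS (Equiv.swap (e 2) (e 3))
  have hne : ∀ i j : Fin 4, i ≠ j → e i ≠ e j := fun i j h h' => h (e.injective h')
  have s0 : σ (e 0 y') = e 0 y' := by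
    have := hσ (e 0)
    rw [Equiv.swap_apply_of_ne_of_ne (hne 0 2 (by decide)) (hne 0 3 (by decide))] at this
    exact (DFunLike.congr_fun this y').symm
  have s1 : σ (e 1 y') = e 1 y' := by
    have := hσ (e 1)
    rw [Equiv.swap_apply_of_ne_of_ne (hne 1 2 (by decide)) (hne 1 3 (by decide))] at this
    exact (DFunLike.congr_fun this y').symm
  have s2 : σ (e 2 y') = e 3 y' := by
    have := hσ (e 2)
    rw [Equiv.swap_apply_left] at this
    exact (DFunLike.congr_fun this y').symm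
  have hz : e 0 y' ≠ 0 := by
    intro h
    have h1 := hpow (e 0)
    rw [h, zero_pow hℓ.ne_zero] at h1
    have h2 := hpow (e 1)
    rw [← h1] at h2
    have h3 : e 1 y' = 0 := pow_eq_zero_iff hℓ.ne_zero |>.1 h2
    exact hinj (e 0) (e 1) (hne 0 1 (by decide)) (h.trans h3.symm)
  have hq : ∀ i, (e i y' / e 0 y') ^ ℓ = 1 := by
    intro i
    rw [div_pow, hpow, hpow]
    apply div_self
    rw [← hpow (e 0)]
    exact pow_ne_zero _ hz
  have hζ1 : e 1 y' / e 0 y' ≠ 1 := by
    intro h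
    rw [div_eq_one_iff_eq hz] at h
    exact hinj (e 1) (e 0) (hne 1 0 (by decide)) h
  have : Fact ℓ.Prime := ⟨hℓ⟩
  have hprim : IsPrimitiveRoot (e 1 y' / e 0 y') ℓ := by
    have h1 := orderOf_eq_prime (hq 1) hζ1
    have h2 := IsPrimitiveRoot.orderOf (e 1 y' / e 0 y')
    rwa [h1] at h2
  obtain ⟨i, -, hi⟩ := hprim.eq_pow_of_pow_eq_one (hq 2)
  have h5 : σ (e 2 y' / e 0 y') = e 2 y' / e 0 y' := by
    rw [← hi, map_pow, map_div₀, s0, s1]
  rw [map_div₀, s0, s2] at h5
  have h6 : e 3 y' = e 2 y' := by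
    have := (div_left_inj' hz).1 h5
    exact this
  exact hinj (e 3) (e 2) (hne 3 2 (by decide)) h6

end Pool.Agent.D0H20.KG
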